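import Mathlib
import Pool.Agent.H65.N6P.Targets
import Pool.Agent.H32.QC.TargetsL
import Pool.Agent.H34.N6.LibB
import Pool.Agent.H34.N6.LibC

/-!
# Two quadrics, block P: the symbols at the finite places (row PLSF)
-/

set_option autoImplicit false

open Polynomial NumberField IsDedekindDomain Matrix Pool.Agent.H32.QC Pool.Agent.H34.N6
  Pool.Agent.H65.N6P

namespace Pool.Agent.H43.N6P

theorem lsf_core (hNEA : T_NEA) (hOPY : T_OPY) (hAPX : T_APX) {k : Type} [Field k] [CharZero k]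
    (F : Type) [NontriviallyNormedField F] [IsUltrametricDist F] [CompleteSpace F] [CharZero F]
    (ι : k →+* F) (hι : DenseRange ι) (p : F) (hp : 0 < ‖p‖) (hp1 : ‖p‖ < 1) (D : k[X])
    (hD : D.Monic) (a c : k) (z : F) (hz : eval₂ ι z D ≠ 0)
    (hS : Sol (ι a) (ι c * eval₂ ι z D)) (N : ℕ) :
    ∃ (G : k[X]) (ε : ℝ), 0 < ε ∧ G.Monic ∧ G.natDegree = N ∧ IsCoprime G D ∧ G.Separable ∧
      ∀ G' : k[X], G'.Monic → G'.natDegree = N → (∀ i, ‖ι ((G' - G).coeff i)‖ < ε) →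
      ∀ (F2 : Type) [NormedField F2] [IsUltrametricDist F2] [CompleteSpace F2] (φ : F →+* F2),
      Ext p φ → ∀ θ : F2, eval₂ (φ.comp ι) θ G' = 0 →
        Sol (φ (ι a)) (φ (ι c) * eval₂ (φ.comp ι) θ D) := by
  have hAD : IsCoprime (X - C z) (D.map ι) := by
    apply (coprime_X_sub (P := D.map ι) (t := z) _).symm
    rw [eval_map]
    exact hz
  obtain ⟨m1, h1⟩ := hOPY F p (D.map ι) (X - C z) hp hp1 (monic_X_sub_C z) hAD
  obtain ⟨ε1, hε1, h2⟩ := hNEA F p (X - C z) hp hp1 (monic_X_sub_C z) (separable_X_sub_C) m1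
  obtain ⟨Aj, hAj, hsep, hcop⟩ := hAPX k F ι hι D (X - C z) N ε1 hD.ne_zero (monic_X_sub_C z)
    (by rw [natDegree_X_sub_C]) hε1
  set G : k[X] := ∏ j, Aj j with hG
  have hGm : G.Monic := monic_prod_of_monic _ _ fun j _ => (hAj j).1
  have hGn : G.natDegree = N := by
    rw [hG, natDegree_prod_of_monic _ _ fun j _ => (hAj j).1,
      Finset.sum_congr rfl fun j _ => (hAj j).2.1, natDegree_X_sub_C]
    simp
  have hGD : IsCoprime (G.map ι) (D.map ι) := hcop.map (mapRingHom ι)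
  obtain ⟨m2, h3⟩ := hOPY F p (D.map ι) (G.map ι) hp hp1 (hGm.map ι) hGD
  obtain ⟨ε2, hε2, h4⟩ := hNEA F p (G.map ι) hp hp1 (hGm.map ι) (hsep.map) m2
  refine ⟨G, ε2, hε2, hGm, hGn, hcop, hsep, ?_⟩
  intro G' hG'm hG'n hclose F2 _ _ _ φ hφ θ hθ
  obtain ⟨θ', e1, e2⟩ := h4 (G'.map ι) (hG'm.map ι) (by rw [natDegree_map, natDegree_map, hG'n, hGn])
    (fun i => by
      rw [← Polynomial.map_sub, coeff_map]
      exact hclose i) F2 φ hφ θ (by rw [eval₂_map]; exact hθ)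
  obtain ⟨u2, hu2, e3⟩ := h3 F2 φ hφ θ θ' e1 e2
  rw [eval₂_map, hG] at e1
  obtain ⟨j, hj⟩ : ∃ j, eval₂ (φ.comp ι) θ' (Aj j) = 0 := by
    have f1 : eval₂ (φ.comp ι) θ' (∏ j, Aj j) = ∏ j, eval₂ (φ.comp ι) θ' (Aj j) :=
      map_prod (eval₂RingHom (φ.comp ι) θ') Aj Finset.univ
    rw [f1] at e1
    obtain ⟨j, -, hj⟩ := Finset.prod_eq_zero_iff.1 e1
    exact ⟨j, hj⟩
  obtain ⟨θ'', e4, e5⟩ := h2 ((Aj j).map ι) ((hAj j).1.map ι) (by rw [natDegree_map, (hAj j).2.1])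
    (hAj j).2.2 F2 φ hφ θ' (by rw [eval₂_map]; exact hj)
  obtain ⟨u1, hu1, e6⟩ := h1 F2 φ hφ θ' θ'' e4 e5
  rw [eval₂_sub, eval₂_X, eval₂_C, sub_eq_zero] at e4
  have e7 : eval₂ (φ.comp ι) θ D = (u2 * u1) ^ 2 * φ (eval₂ ι z D) := by
    rw [eval₂_map] at e3 e6
    rw [eval₂_map] at e3 e6
    rw [e3, e6, e4, hom_eval₂]
    ring
  obtain ⟨x, y, t, hne, hxyz⟩ := hS
  have hu : u2 * u1 ≠ 0 := mul_ne_zero hu2 hu1
  refine ⟨φ x, φ y / (u2 * u1), φ t, ?_, ?_⟩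
  · rcases hne with h | h | h
    · exact Or.inl ((map_ne_zero φ).2 h)
    · exact Or.inr (Or.inl (div_ne_zero ((map_ne_zero φ).2 h) hu))
    · exact Or.inr (Or.inr ((map_ne_zero φ).2 h))
  · have f2 := congrArg φ hxyz
    rw [map_add, map_mul, map_mul, map_mul, map_pow, map_pow, map_pow] at f2
    rw [e7, f2]
    field_simp

theorem lsf_ext {F₁ F₂ : Type} [NormedField F₁] [NormedField F₂] (φ : F₁ →+* F₂)
    (hφ : Continuous φ) {p : F₁} (hp : p ≠ 0) (hp1 : ‖p‖ < 1) : Ext p φ := by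
  refine ⟨fun x hx => norm_le_of_cont φ hφ hp hp1 hx, ?_⟩
  by_contra h1
  push Not at h1
  have h2 : Filter.Tendsto (fun n : ℕ => φ (p ^ n)) Filter.atTop (nhds (φ 0)) :=
    (hφ.tendsto 0).comp (tendsto_pow_atTop_nhds_zero_of_norm_lt_one hp1)
  rw [map_zero] at h2
  have h3 := h2.norm
  rw [norm_zero] at h3
  have h4 : ∀ n : ℕ, (1 : ℝ) ≤ ‖φ (p ^ n)‖ := by
    intro n
    rw [map_pow, norm_pow]
    exact one_le_pow₀ h1
  have h5 := ge_of_tendsto h3 (Filter.Eventually.of_forall h4)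
  linarith

theorem lsf_hs {k : Type} [Field k] [NumberField k] (v : FPl k) (a c : k) :
    hs (Sum.inl v) a c = 1 ↔ Sol (ic v a) (ic v c) := by
  unfold hs hil
  simp

theorem pf_LSF (hADC : Pool.Agent.H32.QC.T_ADC) (hNEA : T_NEA) (hOPY : T_OPY) (hAPX : T_APX)
    (hDSQ : T_DSQ) : T_LSF := by
  intro k _ _ D a c ha hc hD hsep hev v hv N hN
  obtain ⟨hprop, hcz, x, hx⟩ := hADC k v
  let nn : NontriviallyNormedField (v.adicCompletion k) :=
    { (inferInstance : NormedField (v.adicCompletion k)) with non_trivial := ⟨x, hx⟩ }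
  obtain ⟨p, hp0, hp1⟩ := exists_small v
  have hp : 0 < ‖p‖ := norm_pos_iff.2 hp0
  obtain ⟨z, hz, hS⟩ : ∃ z : v.adicCompletion k, eval₂ (ic v) z D ≠ 0 ∧
      Sol (ic v a) (ic v c * eval₂ (ic v) z D) := by
    rcases hv with h | h
    · exact h
    · obtain ⟨z, hz, r, hr⟩ := hDSQ (v.adicCompletion k) (D.map (ic v)) (hD.map _)
        (by rw [natDegree_map]; exact hev)
      rw [eval_map] at hz hr
      refine ⟨z, hz, ?_⟩
      obtain ⟨x', y, t, hne, hxyz⟩ := (lsf_hs v a c).1 h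
      have hr0 : r ≠ 0 := by
        rintro rfl
        rw [mul_zero] at hr
        exact hz hr
      refine ⟨x', y / r, t, ?_, ?_⟩
      · rcases hne with h | h | h
        · exact Or.inl h
        · exact Or.inr (Or.inl (div_ne_zero h hr0))
        · exact Or.inr (Or.inr h)
      · rw [hr, hxyz]
        field_simp
  obtain ⟨G, ε, hε, hGm, hGn, hcop, hGs, hmain⟩ := lsf_core hNEA hOPY hAPX (v.adicCompletion k)
    (ic v) (HeightOneSpectrum.denseRange_algebraMap k v) p hp hp1 D hD a c z hz hS N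
  refine ⟨G, ε, hε, hGm, hGn, hcop, hGs, ?_⟩
  intro G' hG'm hG'n hclose K _ _ _ w hw θ _ hθ
  cases w with
  | inr ψ => exact absurd hw (by simp [bel])
  | inl w =>
    have hw' : w.under (𝓞 k) = v := by
      have : (Sum.inl (w.under (𝓞 k)) : Pl k) = Sum.inl v := hw
      exact Sum.inl.inj this
    obtain ⟨φ, hφc, hφ⟩ : ∃ φ : v.adicCompletion k →+* w.adicCompletion K, Continuous φ ∧
        ∀ x : k, φ (ic v x) = ic w (algebraMap k K x) := by
      subst hw'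
      exact exists_up w
    have hcomp : φ.comp (ic v) = (ic w).comp (algebraMap k K) := RingHom.ext hφ
    have e1 := hmain G' hG'm hG'n hclose (w.adicCompletion K) φ (lsf_ext φ hφc hp0 hp1) (ic w θ)
      (by rw [hcomp, ← hom_eval₂, ← aeval_def, hθ, map_zero])
    show hs (Sum.inl w) _ _ = 1
    rw [lsf_hs, map_mul, ← hφ, ← hφ]
    rw [hcomp, ← hom_eval₂, ← aeval_def] at e1
    exact e1

end Pool.Agent.H43.N6P
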