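import Mathlib
import Pool.Agent.H65.N6P.Targets

/-!
# Two quadrics, block P: nearby roots, uniformly in the extension (row PNEA)
-/

set_option autoImplicit false

open Polynomial NumberField IsDedekindDomain Matrix Pool.Agent.H32.QC Pool.Agent.H34.N6
  Pool.Agent.H65.N6P

namespace Pool.Agent.H43.N6P

theorem ext_le {F F2 : Type} [NormedField F] [NormedField F2] {p : F} {φ : F →+* F2}
    (h : Ext p φ) {x : F} {j : ℕ} (hx : ‖x‖ * ‖p‖ ^ j ≤ 1) : ‖φ x‖ * ‖φ p‖ ^ j ≤ 1 := by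
  have h1 := h.int (x * p ^ j) (by rw [norm_mul, norm_pow]; exact hx)
  rwa [map_mul, map_pow, norm_mul, norm_pow] at h1

theorem ext_pos {F F2 : Type} [NormedField F] [NormedField F2] {p : F} (φ : F →+* F2)
    (hp : 0 < ‖p‖) : 0 < ‖φ p‖ :=
  norm_pos_iff.2 ((map_ne_zero φ).2 (norm_pos_iff.1 hp))

theorem ext_small {F F2 : Type} [NormedField F] [NormedField F2] {p : F} {φ : F →+* F2}
    (h : Ext p φ) (hp : 0 < ‖p‖) {x : F} {j : ℕ} (hx : ‖x‖ ≤ ‖p‖ ^ j) :
    ‖φ x‖ ≤ ‖φ p‖ ^ j := by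
  have h1 := h.int (x / p ^ j) (by
    rw [norm_div, norm_pow]
    exact (div_le_one (pow_pos hp j)).2 hx)
  rw [map_div₀, map_pow, norm_div, norm_pow] at h1
  exact (div_le_one (pow_pos (ext_pos φ hp) j)).1 h1

theorem poly_bound {F : Type} [NormedField F] (R : F[X]) :
    ∃ C : ℝ, 0 ≤ C ∧ ∀ i, ‖R.coeff i‖ ≤ C := by
  refine ⟨∑ i ∈ R.support, ‖R.coeff i‖, Finset.sum_nonneg fun i _ => norm_nonneg _, fun i => ?_⟩
  by_cases hi : i ∈ R.support
  · exact Finset.single_le_sum (f := fun i => ‖R.coeff i‖) (fun i _ => norm_nonneg _) hi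
  · rw [Polynomial.notMem_support_iff.1 hi, norm_zero]
    exact Finset.sum_nonneg fun i _ => norm_nonneg _

theorem exists_s {F : Type} [NormedField F] {p : F} (hp1 : ‖p‖ < 1) {C : ℝ} (hC : 0 ≤ C) :
    ∃ s : ℕ, C * ‖p‖ ^ s ≤ 1 := by
  obtain ⟨s, hs⟩ := exists_pow_lt_of_lt_one (show (0 : ℝ) < 1 / (C + 1) by positivity) hp1
  refine ⟨s, ?_⟩
  calc C * ‖p‖ ^ s ≤ (C + 1) * (1 / (C + 1)) := by
        gcongr
        linarith
    _ = 1 := by field_simp

theorem eval_bd {F : Type} [NormedField F] [IsUltrametricDist F] (R : F[X]) (θ : F) (B c : ℝ)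
    (hB : 1 ≤ B) (hc : 0 ≤ c) (hθ : ‖θ‖ ≤ B) (hR : ∀ i, ‖R.coeff i‖ ≤ c) (n : ℕ)
    (hn : R.natDegree ≤ n) : ‖eval θ R‖ ≤ c * B ^ n := by
  have hB0 : 0 ≤ B := zero_le_one.trans hB
  rw [eval_eq_sum_range' (Nat.lt_succ_of_le hn)]
  apply IsUltrametricDist.norm_sum_le_of_forall_le_of_nonneg (by positivity)
  intro i hi
  rw [norm_mul, norm_pow]
  have hi' : i ≤ n := Nat.lt_succ_iff.1 (Finset.mem_range.1 hi)
  calc ‖R.coeff i‖ * ‖θ‖ ^ i ≤ c * B ^ i := by
        gcongr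
        exact hR i
    _ ≤ c * B ^ n := by gcongr

theorem root_bd {F : Type} [NormedField F] [IsUltrametricDist F] {R : F[X]} {θ : F} {B : ℝ}
    (hB : 1 ≤ B) (hm : R.Monic) (hR : ∀ i, ‖R.coeff i‖ ≤ B) (h0 : eval θ R = 0) : ‖θ‖ ≤ B := by
  by_contra hcon
  rw [not_le] at hcon
  have hθ1 : 1 ≤ ‖θ‖ := hB.trans hcon.le
  have hN : R.natDegree ≠ 0 := by
    intro h
    rw [Polynomial.eq_one_of_monic_natDegree_zero hm h, eval_one] at h0
    exact one_ne_zero h0
  obtain ⟨n, hn⟩ := Nat.exists_eq_succ_of_ne_zero hN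
  have h1 : θ ^ (n + 1) = -∑ i ∈ Finset.range (n + 1), R.coeff i * θ ^ i := by
    have h2 : eval θ R = ∑ i ∈ Finset.range (n + 1), R.coeff i * θ ^ i + θ ^ (n + 1) := by
      rw [eval_eq_sum_range, hn, Finset.sum_range_succ]
      congr 1
      have h3 : R.coeff (n + 1) = 1 := by
        have := hm.coeff_natDegree
        rwa [hn] at this
      rw [h3, one_mul]
    rw [eq_neg_iff_add_eq_zero, add_comm, ← h2]
    exact h0
  have h2 : ‖θ ^ (n + 1)‖ ≤ B * ‖θ‖ ^ n := by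
    rw [h1, norm_neg]
    apply IsUltrametricDist.norm_sum_le_of_forall_le_of_nonneg (by positivity)
    intro i hi
    rw [norm_mul, norm_pow]
    have hi' : i ≤ n := Nat.lt_succ_iff.1 (Finset.mem_range.1 hi)
    calc ‖R.coeff i‖ * ‖θ‖ ^ i ≤ B * ‖θ‖ ^ i := by
          gcongr
          exact hR i
      _ ≤ B * ‖θ‖ ^ n := by gcongr
  rw [norm_pow, pow_succ, mul_comm] at h2
  have h3 : 0 < ‖θ‖ ^ n := by positivity
  exact absurd (le_of_mul_le_mul_right h2 h3) (not_le.2 hcon)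

theorem pf_NEA (hNEW : T_NEW) (_hBDD : T_BDD) : T_NEA := by
  intro F _ _ p G₀ hp hp1 hG hsep m
  obtain ⟨a, b, hab⟩ := hsep
  obtain ⟨C0, hC0, hG0c⟩ := poly_bound G₀
  obtain ⟨Ca, hCa, hac⟩ := poly_bound a
  obtain ⟨Cb, hCb, hbc⟩ := poly_bound b
  obtain ⟨s, hs⟩ := exists_s hp1 (C := C0 + Ca + Cb) (by positivity)
  set N : ℕ := G₀.natDegree with hN
  set K : ℕ := a.natDegree + 2 * b.natDegree + 2 * N + 10 with hK
  set M : ℕ := s * K + m + 1 with hM
  refine ⟨‖p‖ ^ M, by positivity, ?_⟩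
  intro G' hG' hdeg hclose F2 _ _ _ φ hφ θ hθ
  set q : ℝ := ‖φ p‖ with hq
  have hq0 : 0 < q := ext_pos φ hp
  have hq1 : q < 1 := hφ.small
  set B : ℝ := (q ^ s)⁻¹ with hB
  have hqs : 0 < q ^ s := pow_pos hq0 s
  have hB1 : 1 ≤ B := (one_le_inv₀ hqs).2 (pow_le_one₀ hq0.le hq1.le)
  have hB0 : 0 < B := lt_of_lt_of_le one_pos hB1
  have hqB : ∀ k, k ≤ K → q ^ M * B ^ k ≤ q ^ (m + 1) := by
    intro k hk
    obtain ⟨l, hl⟩ : ∃ l, K = k + l := ⟨K - k, by omega⟩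
    have e1 : M = s * k + (s * l + (m + 1)) := by
      rw [hM, hl]
      ring
    have e2 : q ^ (s * k) * B ^ k = 1 := by
      rw [pow_mul, hB, ← mul_pow, mul_inv_cancel₀ hqs.ne', one_pow]
    calc q ^ M * B ^ k = (q ^ (s * k) * B ^ k) * (q ^ (s * l) * q ^ (m + 1)) := by
          rw [e1, pow_add, pow_add]
          ring
      _ = q ^ (s * l) * q ^ (m + 1) := by rw [e2, one_mul]
      _ ≤ 1 * q ^ (m + 1) := by
          gcongr
          exact pow_le_one₀ hq0.le hq1.le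
      _ = q ^ (m + 1) := one_mul _
  have hsmall : q ^ (m + 1) < 1 := pow_lt_one₀ hq0.le hq1 (by omega)
  -- bounds for the coefficients
  have hle : ∀ x : F, ‖x‖ ≤ C0 + Ca + Cb → ‖φ x‖ ≤ B := by
    intro x hx
    have h1 : ‖x‖ * ‖p‖ ^ s ≤ 1 := (mul_le_mul_of_nonneg_right hx (by positivity)).trans hs
    have h2 := ext_le hφ h1
    rw [hB, ← one_div, le_div_iff₀ hqs]
    exact h2
  have hG0B : ∀ i, ‖(G₀.map φ).coeff i‖ ≤ B := fun i => by
    rw [coeff_map]
    exact hle _ ((hG0c i).trans (by linarith))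
  have haB : ∀ i, ‖(a.map φ).coeff i‖ ≤ B := fun i => by
    rw [coeff_map]
    exact hle _ ((hac i).trans (by linarith))
  have hbB : ∀ i, ‖(b.map φ).coeff i‖ ≤ B := fun i => by
    rw [coeff_map]
    exact hle _ ((hbc i).trans (by linarith))
  have hdif : ∀ i, ‖((G' - G₀).map φ).coeff i‖ ≤ q ^ M := fun i => by
    rw [coeff_map]
    exact ext_small hφ hp (hclose i).le
  have hG'B : ∀ i, ‖(G'.map φ).coeff i‖ ≤ B := fun i => by
    have h1 : (G'.map φ).coeff i = ((G' - G₀).map φ).coeff i + (G₀.map φ).coeff i := by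
      rw [Polynomial.map_sub, coeff_sub, sub_add_cancel]
    rw [h1]
    refine (IsUltrametricDist.norm_add_le_max _ _).trans (max_le ?_ (hG0B i))
    exact (hdif i).trans ((pow_le_one₀ hq0.le hq1.le).trans hB1)
  -- the root is bounded
  rw [← eval_map] at hθ
  have hθB : ‖θ‖ ≤ B := root_bd hB1 (hG'.map φ) hG'B hθ
  -- the value of `G₀`
  have hg : ‖eval θ (G₀.map φ)‖ ≤ q ^ M * B ^ N := by
    have h1 : eval θ (G₀.map φ) = -eval θ ((G' - G₀).map φ) := by
      rw [Polynomial.map_sub, eval_sub, hθ, zero_sub, neg_neg]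
    rw [h1, norm_neg]
    apply eval_bd _ _ _ _ hB1 (by positivity) hθB hdif
    refine Polynomial.natDegree_map_le.trans ?_
    refine (Polynomial.natDegree_sub_le _ _).trans ?_
    rw [hdeg, max_self]
  have hea : ‖eval θ (a.map φ)‖ ≤ B * B ^ a.natDegree :=
    eval_bd _ _ _ _ hB1 hB0.le hθB haB _ Polynomial.natDegree_map_le
  have heb : ‖eval θ (b.map φ)‖ ≤ B * B ^ b.natDegree :=
    eval_bd _ _ _ _ hB1 hB0.le hθB hbB _ Polynomial.natDegree_map_le
  -- the value of the derivative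
  set g : ℝ := ‖eval θ (G₀.map φ)‖ with hgd
  set d : ℝ := ‖eval θ (derivative (G₀.map φ))‖ with hdd
  have hd : 1 ≤ d * B ^ (b.natDegree + 1) := by
    have h1 : eval θ (a.map φ) * eval θ (G₀.map φ) +
        eval θ (b.map φ) * eval θ (derivative (G₀.map φ)) = 1 := by
      have h2 := congrArg (fun R => eval θ (R.map φ)) hab
      simp only [Polynomial.map_add, Polynomial.map_mul, eval_add, eval_mul, Polynomial.map_one,
        eval_one] at h2
      rw [derivative_map]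
      exact h2
    have h2 : ‖eval θ (a.map φ) * eval θ (G₀.map φ)‖ < 1 := by
      rw [norm_mul]
      calc ‖eval θ (a.map φ)‖ * ‖eval θ (G₀.map φ)‖
          ≤ (B * B ^ a.natDegree) * (q ^ M * B ^ N) := by gcongr
        _ = q ^ M * B ^ (a.natDegree + N + 1) := by ring
        _ ≤ q ^ (m + 1) := hqB _ (by omega)
        _ < 1 := hsmall
    have h3 : 1 ≤ ‖eval θ (b.map φ) * eval θ (derivative (G₀.map φ))‖ := by
      by_contra hcon
      rw [not_le] at hcon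
      have h4 := IsUltrametricDist.norm_add_le_max (eval θ (a.map φ) * eval θ (G₀.map φ))
        (eval θ (b.map φ) * eval θ (derivative (G₀.map φ)))
      rw [h1, norm_one] at h4
      exact absurd h4 (not_le.2 (max_lt h2 hcon))
    rw [norm_mul] at h3
    calc 1 ≤ ‖eval θ (b.map φ)‖ * d := h3
      _ ≤ (B * B ^ b.natDegree) * d := by gcongr
      _ = d * B ^ (b.natDegree + 1) := by ring
  have hd0 : 0 < d := by
    by_contra hcon
    have h1 : d = 0 := le_antisymm (not_lt.1 hcon) (norm_nonneg _)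
    rw [h1, zero_mul] at hd
    linarith
  have hnew : g * B ^ ((G₀.map φ).natDegree + 1) < d ^ 2 := by
    rw [hG.natDegree_map, ← hN]
    have h1 : g * B ^ (N + 1) * B ^ (2 * (b.natDegree + 1)) <
        d ^ 2 * B ^ (2 * (b.natDegree + 1)) := by
      calc g * B ^ (N + 1) * B ^ (2 * (b.natDegree + 1))
          ≤ (q ^ M * B ^ N) * B ^ (N + 1) * B ^ (2 * (b.natDegree + 1)) := by gcongr
        _ = q ^ M * B ^ (2 * N + 1 + 2 * (b.natDegree + 1)) := by ring
        _ ≤ q ^ (m + 1) := hqB _ (by omega)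
        _ < 1 := hsmall
        _ = 1 ^ 2 := (one_pow 2).symm
        _ ≤ (d * B ^ (b.natDegree + 1)) ^ 2 := by gcongr
        _ = d ^ 2 * B ^ (2 * (b.natDegree + 1)) := by
            rw [mul_pow, ← pow_mul, mul_comm (b.natDegree + 1) 2]
    exact lt_of_mul_lt_mul_right h1 (by positivity)
  obtain ⟨θ', hθ', hdist⟩ := hNEW F2 (G₀.map φ) θ B hB1 hG0B hθB hnew
  refine ⟨θ', by rw [← eval_map]; exact hθ', ?_⟩
  calc ‖θ - θ'‖ = ‖θ - θ'‖ * 1 := (mul_one _).symm
    _ ≤ ‖θ - θ'‖ * (d * B ^ (b.natDegree + 1)) := by gcongr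
    _ = (‖θ - θ'‖ * d) * B ^ (b.natDegree + 1) := (mul_assoc _ _ _).symm
    _ ≤ g * B ^ (b.natDegree + 1) := by gcongr
    _ ≤ (q ^ M * B ^ N) * B ^ (b.natDegree + 1) := by gcongr
    _ = q ^ M * B ^ (N + b.natDegree + 1) := by ring
    _ ≤ q ^ (m + 1) := hqB _ (by omega)
    _ ≤ q ^ m := pow_le_pow_of_le_one hq0.le hq1.le (by omega)

end Pool.Agent.H43.N6P
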