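import Mathlib
import Pool.Agent.H65.N6P.Targets
import Pool.Agent.H32.N6.TargetsB
import Pool.Agent.H34.N6.Lib
import Pool.Agent.H34.N6.LibB
import Pool.Agent.H43.N6P.NEA

/-!
# Two quadrics, block P: the split property near a root (row POPS)
-/

set_option autoImplicit false

open Polynomial NumberField IsDedekindDomain Matrix Pool.Agent.H32.QC Pool.Agent.H34.N6
  Pool.Agent.H65.N6P

namespace Pool.Agent.H43.N6P

theorem ops_det_le {F : Type} [NormedField F] [IsUltrametricDist F] {n : ℕ}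
    (M : Matrix (Fin n) (Fin n) F) (B : ℝ) (hB : 0 ≤ B) (hM : ∀ i j, ‖M i j‖ ≤ B) :
    ‖M.det‖ ≤ B ^ n := by
  rw [Matrix.det_apply]
  apply IsUltrametricDist.norm_sum_le_of_forall_le_of_nonneg (by positivity)
  intro σ _
  have h1 : ‖∏ i, M (σ i) i‖ ≤ B ^ n := by
    rw [norm_prod]
    calc ∏ i : Fin n, ‖M (σ i) i‖ ≤ ∏ _i : Fin n, B :=
          Finset.prod_le_prod (fun i _ => norm_nonneg _) fun i _ => hM _ _
      _ = B ^ n := by simp
  rcases Int.units_eq_one_or (Equiv.Perm.sign σ) with h | h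
  · rw [h, one_smul]
    exact h1
  · rw [h, Units.neg_smul, one_smul, norm_neg]
    exact h1

theorem ops_adj_le {F : Type} [NormedField F] [IsUltrametricDist F] {n : ℕ}
    (M : Matrix (Fin n) (Fin n) F) (B : ℝ) (hB : 1 ≤ B) (hM : ∀ i j, ‖M i j‖ ≤ B) (i j : Fin n) :
    ‖M.adjugate i j‖ ≤ B ^ n := by
  rw [Matrix.adjugate_apply]
  refine ops_det_le _ B (by linarith) fun a b => ?_
  rw [Matrix.updateRow_apply]
  split_ifs with h
  · by_cases hb : b = i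
    · subst hb
      rw [Pi.single_eq_same, norm_one]
      exact hB
    · rw [Pi.single_eq_of_ne hb, norm_zero]
      linarith
  · exact hM a b

theorem ops_mat_bd {F : Type} [NormedField F] {n : ℕ} (M : Matrix (Fin n) (Fin n) F) :
    ∃ C : ℝ, 0 ≤ C ∧ ∀ i j, ‖M i j‖ ≤ C := by
  refine ⟨∑ i, ∑ j, ‖M i j‖, Finset.sum_nonneg fun i _ => Finset.sum_nonneg fun j _ =>
    norm_nonneg _, fun i j => ?_⟩
  calc ‖M i j‖ ≤ ∑ j, ‖M i j‖ :=
        Finset.single_le_sum (f := fun j => ‖M i j‖) (fun j _ => norm_nonneg _)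
          (Finset.mem_univ j)
    _ ≤ ∑ i, ∑ j, ‖M i j‖ :=
        Finset.single_le_sum (f := fun i => ∑ j, ‖M i j‖)
          (fun i _ => Finset.sum_nonneg fun j _ => norm_nonneg _) (Finset.mem_univ i)

theorem pf_OPS (hOPM : T_OPM) (hBDD : T_BDD) (hBDE : Pool.Agent.H32.N6.T_BDE) : T_OPS := by
  intro F _ _ _ p P D G₀ hp hp1 hP h7 hPD hG hGP
  obtain ⟨s, hs⟩ := hBDD F p G₀ P hp hp1 hG hGP
  have hdet0 : (gA P D 0).det ≠ 0 := gA_det_ne hP h7 hPD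
  have h4 : (4 : F) ≠ 0 := by norm_num
  obtain ⟨C0, hC0, hC0'⟩ := ops_mat_bd (gA P D 0)
  obtain ⟨C1, hC1, hC1'⟩ := ops_mat_bd (gA P D 1)
  set C2 : ℝ := ‖((gA P D 0).det)⁻¹‖ with hC2
  set C3 : ℝ := ‖(4 : F)⁻¹‖ with hC3
  have hC2' : 0 ≤ C2 := norm_nonneg _
  have hC3' : 0 ≤ C3 := norm_nonneg _
  obtain ⟨s2, hs2⟩ := exists_s hp1 (C := C0 + C1 + C2 + C3) (by positivity)
  refine ⟨2 * s2 + 8 * (s + s2) + 1, ?_⟩
  intro F2 _ _ _ φ hφ θ θ' hθ' hclose hTI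
  obtain ⟨hb1, hb2, hb3⟩ := hs F2 φ hφ θ' hθ'
  set q : ℝ := ‖φ p‖ with hq
  have hq0 : 0 < q := ext_pos φ hp
  have hq1 : q < 1 := hφ.small
  have hle : ∀ x : F, ‖x‖ ≤ C0 + C1 + C2 + C3 → ‖φ x‖ * q ^ s2 ≤ 1 := by
    intro x hx
    exact ext_le hφ ((mul_le_mul_of_nonneg_right hx (by positivity)).trans hs2)
  set B : ℝ := (q ^ (s + s2))⁻¹ with hB
  have hqs : 0 < q ^ (s + s2) := pow_pos hq0 _
  have hB1 : 1 ≤ B := (one_le_inv₀ hqs).2 (pow_le_one₀ hq0.le hq1.le)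
  have hBq : B * q ^ (s + s2) = 1 := inv_mul_cancel₀ hqs.ne'
  have toB : ∀ x : F2, ‖x‖ * q ^ (s + s2) ≤ 1 → ‖x‖ ≤ B := by
    intro x hx
    rw [hB, ← one_div, le_div_iff₀ hqs]
    exact hx
  have hqs1 : q ^ s ≤ 1 := pow_le_one₀ hq0.le hq1.le
  have hqs2 : q ^ s2 ≤ 1 := pow_le_one₀ hq0.le hq1.le
  -- the matrices
  have hA : ∀ t : F2, ft (P.map φ) (D.map φ) t = (gA P D 1).map φ - t • (gA P D 0).map φ := by
    intro t
    unfold ft
    rw [gA_map hP, gA_map hP]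
  have hH0 : ∀ i j, ‖φ (gA P D 0 i j)‖ * q ^ s2 ≤ 1 := fun i j =>
    hle _ ((hC0' i j).trans (by linarith))
  have hH1 : ∀ i j, ‖φ (gA P D 1 i j)‖ * q ^ s2 ≤ 1 := fun i j =>
    hle _ ((hC1' i j).trans (by linarith))
  have hAb : ∀ i j, ‖ft (P.map φ) (D.map φ) θ' i j‖ ≤ B := by
    intro i j
    rw [hA, Matrix.sub_apply, Matrix.smul_apply, Matrix.map_apply, Matrix.map_apply, smul_eq_mul]
    rw [sub_eq_add_neg]
    refine (IsUltrametricDist.norm_add_le_max _ _).trans (max_le ?_ ((norm_neg _).trans_le ?_))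
    · apply toB
      rw [pow_add]
      calc ‖φ (gA P D 1 i j)‖ * (q ^ s * q ^ s2) = q ^ s * (‖φ (gA P D 1 i j)‖ * q ^ s2) := by
            ring
        _ ≤ 1 * 1 := mul_le_mul hqs1 (hH1 i j) (by positivity) zero_le_one
        _ = 1 := one_mul 1
    · apply toB
      rw [pow_add, norm_mul]
      calc ‖θ'‖ * ‖φ (gA P D 0 i j)‖ * (q ^ s * q ^ s2)
          = (‖θ'‖ * q ^ s) * (‖φ (gA P D 0 i j)‖ * q ^ s2) := by ring
        _ ≤ 1 * 1 := mul_le_mul hb1 (hH0 i j) (by positivity) zero_le_one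
        _ = 1 := one_mul 1
  have hdet : (ft (P.map φ) (D.map φ) θ').det = -(eval₂ φ θ' P) * φ (gA P D 0).det := by
    rw [hBDE F2 (P.map φ) (D.map φ) θ' (hP.map φ) (by rw [natDegree_map, h7]), gA_map hP,
      eval_map, RingHom.map_det]
    rfl
  have hPne : eval₂ φ θ' P ≠ 0 := norm_pos_iff.1 (lt_of_lt_of_le (pow_pos hq0 s) hb3)
  have hφd : φ (gA P D 0).det ≠ 0 := (map_ne_zero φ).2 hdet0
  have hdne : (ft (P.map φ) (D.map φ) θ').det ≠ 0 := by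
    rw [hdet]
    exact mul_ne_zero (neg_ne_zero.2 hPne) hφd
  have hdinv : ‖((ft (P.map φ) (D.map φ) θ').det)⁻¹‖ ≤ B := by
    apply toB
    rw [hdet, norm_inv, norm_mul, norm_neg, mul_inv, pow_add]
    have e1 : ‖eval₂ φ θ' P‖⁻¹ * q ^ s ≤ 1 := by
      rw [inv_mul_le_one₀ (norm_pos_iff.2 hPne)]
      exact hb3
    have e2 : ‖φ (gA P D 0).det‖⁻¹ * q ^ s2 ≤ 1 := by
      rw [← norm_inv, ← map_inv₀]
      exact hle _ (by linarith)
    calc ‖eval₂ φ θ' P‖⁻¹ * ‖φ (gA P D 0).det‖⁻¹ * (q ^ s * q ^ s2)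
        = (‖eval₂ φ θ' P‖⁻¹ * q ^ s) * (‖φ (gA P D 0).det‖⁻¹ * q ^ s2) := by ring
      _ ≤ 1 * 1 := mul_le_mul e1 e2 (by positivity) zero_le_one
      _ = 1 := one_mul 1
  have hφ4 : q ^ s2 ≤ ‖(4 : F2)‖ := by
    have e1 := hle (4 : F)⁻¹ (by linarith)
    rw [map_inv₀, norm_inv, map_ofNat] at e1
    have e2 : (0 : ℝ) < ‖(4 : F2)‖ := by
      have : (4 : F2) ≠ 0 := by
        rw [← map_ofNat φ 4]
        exact (map_ne_zero φ).2 h4
      exact norm_pos_iff.2 this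
    rwa [inv_mul_le_one₀ e2] at e1
  have h42 : (4 : F2) ≠ 0 := norm_pos_iff.1 (lt_of_lt_of_le (pow_pos hq0 s2) hφ4)
  set A := ft (P.map φ) (D.map φ) θ' with hAdef
  set E : Matrix (Fin 7) (Fin 7) F2 := (θ' - θ) • (gA P D 0).map φ with hE
  have hsum : ft (P.map φ) (D.map φ) θ = A + E := by
    rw [hAdef, hE, hA, hA]
    ext i j
    simp only [Matrix.add_apply, Matrix.sub_apply, Matrix.smul_apply, Matrix.map_apply,
      smul_eq_mul]
    ring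
  rw [hsum]
  have hEs : E.IsSymm := by
    rw [hE, ← gA_map hP]
    exact (gA_symm _ _ 0).smul _
  refine hOPM F2 7 3 A (A.det⁻¹ • A.adjugate) E (B ^ 8) h42 (ft_symm _ _ _) hEs ?_ ?_ ?_ ?_ hTI
  · rw [Matrix.mul_smul, Matrix.mul_adjugate, smul_smul, inv_mul_cancel₀ hdne, one_smul]
  · exact one_le_pow₀ hB1
  · intro i j
    rw [Matrix.smul_apply, smul_eq_mul, norm_mul]
    calc ‖A.det⁻¹‖ * ‖A.adjugate i j‖ ≤ B * B ^ 7 :=
          mul_le_mul hdinv (ops_adj_le A B hB1 hAb i j) (norm_nonneg _) (by linarith)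
      _ = B ^ 8 := by ring
  · intro i j
    rw [hE, Matrix.smul_apply, Matrix.map_apply, smul_eq_mul, norm_mul, norm_sub_rev]
    have e1 : ‖θ - θ'‖ * ‖φ (gA P D 0 i j)‖ * B ^ 8 ≤ q ^ (s2 + 1) := by
      calc ‖θ - θ'‖ * ‖φ (gA P D 0 i j)‖ * B ^ 8
          ≤ q ^ (2 * s2 + 8 * (s + s2) + 1) * ‖φ (gA P D 0 i j)‖ * B ^ 8 := by gcongr
        _ = q ^ (s2 + 1) * (‖φ (gA P D 0 i j)‖ * q ^ s2) * (B * q ^ (s + s2)) ^ 8 := by
            rw [mul_pow, ← pow_mul]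
            ring
        _ = q ^ (s2 + 1) * (‖φ (gA P D 0 i j)‖ * q ^ s2) := by rw [hBq, one_pow, mul_one]
        _ ≤ q ^ (s2 + 1) * 1 := by
            gcongr
            exact hH0 i j
        _ = q ^ (s2 + 1) := mul_one _
    refine lt_of_le_of_lt e1 (lt_of_lt_of_le ?_ hφ4)
    rw [pow_succ]
    exact mul_lt_of_lt_one_right (pow_pos hq0 _) hq1

end Pool.Agent.H43.N6P
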